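import Mathlib
import Pool.Agent.TH264.Bridge.PW

set_option autoImplicit false

/-! Characters of a compact abelian group in `L²`: orthonormality and Bessel's inequality. -/

namespace Pool.Agent.TH264.Bridge

open MeasureTheory Filter Topology
open scoped ComplexConjugate Pointwise

section Chars

variable {K : Type*} [CommGroup K] [TopologicalSpace K] [IsTopologicalGroup K]

/-- The complex-valued function of a character. -/
noncomputable def ev (χ : PontryaginDual K) (x : K) : ℂ := ((χ x : Circle) : ℂ)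

omit [IsTopologicalGroup K] in
lemma ev_cont (χ : PontryaginDual K) : Continuous (ev χ) := by
  have h : Continuous (fun x => χ x) := map_continuous χ
  unfold ev
  fun_prop

omit [IsTopologicalGroup K] in
lemma norm_ev (χ : PontryaginDual K) (x : K) : ‖ev χ x‖ = 1 := Circle.norm_coe _

omit [IsTopologicalGroup K] in
lemma ev_one (x : K) : ev (1 : PontryaginDual K) x = 1 := by
  simp [ev]

omit [IsTopologicalGroup K] in
lemma ev_at_one (χ : PontryaginDual K) : ev χ (1 : K) = 1 := by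
  simp [ev]

omit [IsTopologicalGroup K] in
lemma ev_mul (χ : PontryaginDual K) (x y : K) : ev χ (x * y) = ev χ x * ev χ y := by
  simp [ev]

omit [IsTopologicalGroup K] in
lemma mul_ev (χ ψ : PontryaginDual K) (x : K) : ev (χ * ψ) x = ev χ x * ev ψ x := by
  have : (χ * ψ) x = χ x * ψ x := rfl
  simp [ev, this]

omit [IsTopologicalGroup K] in
lemma ev_inv (χ : PontryaginDual K) (x : K) : ev χ⁻¹ x = conj (ev χ x) := by
  have : (χ⁻¹) x = (χ x)⁻¹ := rfl
  rw [ev, this, Circle.coe_inv_eq_conj]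
  rfl

omit [IsTopologicalGroup K] in
lemma ev_inj {χ ψ : PontryaginDual K} (h : ∀ x, ev χ x = ev ψ x) : χ = ψ := by
  ext x
  exact h x

variable [CompactSpace K] [MeasurableSpace K] [BorelSpace K] (μ : Measure K)
  [μ.IsMulLeftInvariant] [IsProbabilityMeasure μ]

omit [CompactSpace K] [IsProbabilityMeasure μ] in
lemma integral_ev {χ : PontryaginDual K} (hχ : χ ≠ 1) : ∫ x, ev χ x ∂μ = 0 := by
  obtain ⟨y, hy⟩ : ∃ y, ev χ y ≠ 1 := by
    by_contra hcon
    push Not at hcon
    exact hχ (ev_inj fun x => by rw [hcon, ev_one])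
  have h1 := integral_mul_left_eq_self (μ := μ) (fun x => ev χ x) y
  simp only [ev_mul] at h1
  rw [integral_const_mul] at h1
  have h2 : (ev χ y - 1) * ∫ x, ev χ x ∂μ = 0 := by
    rw [sub_mul, h1, one_mul, sub_self]
  rcases mul_eq_zero.1 h2 with h | h
  · exact absurd (sub_eq_zero.1 h) hy
  · exact h

omit [CompactSpace K] in
lemma integral_ev_mul (χ ψ : PontryaginDual K) [Decidable (χ = ψ)] :
    ∫ x, ev χ x * conj (ev ψ x) ∂μ = if χ = ψ then 1 else 0 := by
  have h1 : ∀ x, ev χ x * conj (ev ψ x) = ev (χ * ψ⁻¹) x := fun x => by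
    rw [mul_ev, ev_inv]
  simp only [h1]
  split_ifs with h
  · subst h
    simp [ev_one]
  · apply integral_ev
    rwa [Ne, mul_inv_eq_one]

/-- Character as a continuous map. -/
noncomputable def evC (χ : PontryaginDual K) : C(K, ℂ) := ⟨ev χ, ev_cont χ⟩

/-- Character as an element of `L²`. -/
noncomputable def evL (χ : PontryaginDual K) : Lp ℂ 2 μ := ContinuousMap.toLp 2 μ ℂ (evC χ)

lemma evL_ae (χ : PontryaginDual K) : evL μ χ =ᵐ[μ] ev χ :=
  ContinuousMap.coeFn_toLp (p := 2) (𝕜 := ℂ) μ (evC χ)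

lemma inner_evL (χ : PontryaginDual K) {f : K → ℂ} (hf : MemLp f 2 μ) :
    inner ℂ (evL μ χ) (hf.toLp f) = ∫ x, f x * conj (ev χ x) ∂μ := by
  rw [L2.inner_def]
  apply integral_congr_ae
  filter_upwards [evL_ae μ χ, hf.coeFn_toLp] with x h1 h2
  rw [h1, h2]
  rfl

lemma orthonormal_evL : Orthonormal ℂ (evL (K := K) μ) := by
  classical
  rw [orthonormal_iff_ite]
  intro χ ψ
  have hm : MemLp (ev ψ) 2 μ := by
    have := (evC ψ).continuous
    exact MemLp.of_bound this.aestronglyMeasurable 1 (by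
      filter_upwards with x
      exact (norm_ev ψ x).le)
  have h1 : evL μ ψ = hm.toLp (ev ψ) := by
    apply Lp.ext
    filter_upwards [evL_ae μ ψ, hm.coeFn_toLp] with x h1 h2
    rw [h1, h2]
  rw [h1, inner_evL, integral_ev_mul]
  simp only [eq_comm]

/-- Bessel's inequality. -/
lemma bessel (T : Finset (PontryaginDual K)) {f : K → ℂ} (hf : MemLp f 2 μ) :
    ∑ ψ ∈ T, ‖∫ x, f x * conj (ev ψ x) ∂μ‖ ^ 2 ≤ ∫ x, ‖f x‖ ^ 2 ∂μ := by
  have h1 := (orthonormal_evL (K := K) μ).sum_inner_products_le (hf.toLp f) (s := T)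
  simp only [inner_evL] at h1
  refine h1.trans (le_of_eq ?_)
  have h2 : ((‖hf.toLp f‖ ^ 2 : ℝ) : ℂ) = inner ℂ (hf.toLp f) (hf.toLp f) := by
    rw [inner_self_eq_norm_sq_to_K]
    norm_cast
  have h3 : inner ℂ (hf.toLp f) (hf.toLp f) = ((∫ x, ‖f x‖ ^ 2 ∂μ : ℝ) : ℂ) := by
    rw [L2.inner_def, ← integral_complex_ofReal]
    apply integral_congr_ae
    filter_upwards [hf.coeFn_toLp] with x h2
    rw [h2, inner_self_eq_norm_sq_to_K]
    norm_cast
  rw [h3] at h2
  exact_mod_cast h2

end Chars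

end Pool.Agent.TH264.Bridge
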