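import Mathlib
import Pool.Agent.TH264.Bridge.Core

set_option autoImplicit false

/-! The inequality `1 ≤ |T_F(X)| (1 + δ C)^|F| μ(U_F)` and the covering lemma. -/

namespace Pool.Agent.TH264.Bridge

open MeasureTheory Filter Topology
open scoped ComplexConjugate Pointwise

section Good

variable {K : Type*} [CommGroup K] [TopologicalSpace K] [IsTopologicalGroup K]

/-- Trigonometric polynomials with value `1` at the identity, bounded by `1`. -/
def Good (h : K → ℂ) : Prop :=
  Continuous h ∧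
  (∃ X : Finset (PontryaginDual K), h ∈ Submodule.span ℂ (ev '' (X : Set (PontryaginDual K)))) ∧
  h 1 = 1 ∧ ∀ x, ‖h x‖ ≤ 1

omit [IsTopologicalGroup K] in
lemma good_one : Good (fun _ : K => (1 : ℂ)) := by
  refine ⟨continuous_const, ⟨{1}, ?_⟩, rfl, fun _ => by simp⟩
  apply Submodule.subset_span
  refine ⟨1, by simp, ?_⟩
  funext x
  exact ev_one x

omit [IsTopologicalGroup K] in
lemma good_mul {h k : K → ℂ} (hh : Good h) (hk : Good k) : Good (h * k) := by
  classical
  obtain ⟨hc, ⟨X, hX⟩, h1, hb⟩ := hh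
  obtain ⟨kc, ⟨Y, hY⟩, k1, kb⟩ := hk
  refine ⟨hc.mul kc, ⟨X * Y, ?_⟩, ?_, ?_⟩
  · have h2 := Submodule.mul_mem_mul hX hY
    rw [Submodule.span_mul_span] at h2
    refine Submodule.span_mono ?_ h2
    rintro _ ⟨_, ⟨χ, hχ, rfl⟩, _, ⟨ψ, hψ, rfl⟩, rfl⟩
    refine ⟨χ * ψ, ?_, ?_⟩
    · rw [Finset.coe_mul]
      exact Set.mul_mem_mul hχ hψ
    · funext x
      simp [mul_ev]
  · simp [h1, k1]
  · intro x
    rw [Pi.mul_apply, norm_mul]
    exact mul_le_one₀ (hb x) (norm_nonneg _) (kb x)

omit [IsTopologicalGroup K] in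
lemma good_pow {h : K → ℂ} (hh : Good h) (n : ℕ) : Good (h ^ n) := by
  induction n with
  | zero => exact good_one
  | succ n ih => rw [pow_succ]; exact good_mul ih hh

omit [IsTopologicalGroup K] in
lemma good_char (χ : PontryaginDual K) : Good (fun x => (1 + ev χ x) / 2) := by
  classical
  refine ⟨(continuous_const.add (ev_cont χ)).div_const _, ⟨{1, χ}, ?_⟩, ?_, ?_⟩
  · have h1 : (fun x => (1 + ev χ x) / 2) = (1 / 2 : ℂ) • ev (1 : PontryaginDual K) +
        (1 / 2 : ℂ) • ev χ := by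
      funext x
      simp only [Pi.add_apply, Pi.smul_apply, smul_eq_mul, ev_one]
      ring
    rw [h1]
    refine Submodule.add_mem _ (Submodule.smul_mem _ _ (Submodule.subset_span ?_))
      (Submodule.smul_mem _ _ (Submodule.subset_span ?_))
    · exact ⟨1, by simp, rfl⟩
    · exact ⟨χ, by simp, rfl⟩
  · simp only [ev_at_one]
    norm_num
  · intro x
    rw [norm_div]
    have h1 : ‖1 + ev χ x‖ ≤ 2 := by
      refine (norm_add_le _ _).trans ?_
      rw [norm_ev, norm_one]
      norm_num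
    simp only [Complex.norm_ofNat]
    linarith

lemma norm_half_lt {z : ℂ} (hz : ‖z‖ = 1) (h1 : z ≠ 1) : ‖(1 + z) / 2‖ < 1 := by
  have h2 : z.re ^ 2 + z.im ^ 2 = 1 := by
    have := Complex.sq_norm z
    rw [hz, Complex.normSq_apply] at this
    linarith
  have h3 : z.re < 1 := by
    by_contra hcon
    push Not at hcon
    have h4 : z.im = 0 := by nlinarith
    have h5 : z.re = 1 := by nlinarith
    exact h1 (Complex.ext h5 h4)
  rw [norm_div, Complex.norm_ofNat, div_lt_one (by norm_num)]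
  have h4 : ‖1 + z‖ ^ 2 < 2 ^ 2 := by
    rw [Complex.sq_norm, Complex.normSq_apply]
    simp only [Complex.add_re, Complex.one_re, Complex.add_im, Complex.one_im, zero_add]
    nlinarith
  exact lt_of_pow_lt_pow_left₀ 2 (by norm_num) h4

variable [CompactSpace K] [T2Space K]

lemma exists_good_lt (W : Set K) (hW : IsOpen W) (h1 : (1 : K) ∈ W) :
    ∃ h : K → ℂ, Good h ∧ ∀ x ∉ W, ‖h x‖ < 1 := by
  have hc : IsCompact Wᶜ := hW.isClosed_compl.isCompact
  have key : ∃ h : K → ℂ, Good h ∧ ∀ x ∈ Wᶜ, ‖h x‖ < 1 := by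
    refine hc.induction_on (p := fun s => ∃ h : K → ℂ, Good h ∧ ∀ x ∈ s, ‖h x‖ < 1) ?_ ?_ ?_ ?_
    · exact ⟨_, good_one, fun x hx => absurd hx (Set.notMem_empty x)⟩
    · rintro s t hst ⟨h, hg, hx⟩
      exact ⟨h, hg, fun x hxs => hx x (hst hxs)⟩
    · rintro s t ⟨h, hg, hx⟩ ⟨k, kg, kx⟩
      refine ⟨h * k, good_mul hg kg, ?_⟩
      rintro x (hxs | hxt)
      · rw [Pi.mul_apply, norm_mul]
        exact mul_lt_one_of_nonneg_of_lt_one_left (norm_nonneg _) (hx x hxs) (kg.2.2.2 x)
      · rw [Pi.mul_apply, norm_mul]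
        exact mul_lt_one_of_nonneg_of_lt_one_right (hg.2.2.2 x) (norm_nonneg _) (kx x hxt)
    · intro x hx
      have hx1 : x ≠ 1 := by
        rintro rfl
        exact hx h1
      obtain ⟨χ0, hχc, hχ⟩ := char_sep_mul K x hx1
      let χ : PontryaginDual K := (⟨χ0, hχc⟩ : K →ₜ* Circle)
      have hχx : ev χ x ≠ 1 := by
        intro h
        apply hχ
        have h2 : ((χ0 x : Circle) : ℂ) = ((1 : Circle) : ℂ) := by
          rw [Circle.coe_one]; exact h
        exact Circle.coe_injective h2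
      have hg := good_char χ
      refine ⟨{y | ‖(1 + ev χ y) / 2‖ < 1}, ?_, _, hg, fun y hy => hy⟩
      apply mem_nhdsWithin_of_mem_nhds
      apply IsOpen.mem_nhds
      · exact isOpen_lt hg.1.norm continuous_const
      · exact norm_half_lt (norm_ev χ x) hχx
  exact key

theorem exists_trig (W : Set K) (hW : IsOpen W) (h1 : (1 : K) ∈ W) (δ : ℝ) (hδ : 0 < δ) :
    ∃ (X : Finset (PontryaginDual K)) (a : PontryaginDual K → ℂ), X.Nonempty ∧
      (∑ χ ∈ X, a χ = 1) ∧ (∀ x, ‖∑ χ ∈ X, a χ * ev χ x‖ ≤ 1) ∧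
      (∀ x ∉ W, ‖∑ χ ∈ X, a χ * ev χ x‖ ^ 2 ≤ δ) := by
  classical
  obtain ⟨h, hg, hlt⟩ := exists_good_lt W hW h1
  obtain ⟨r, hr0, hr1, hr⟩ : ∃ r : ℝ, 0 ≤ r ∧ r < 1 ∧ ∀ x ∉ W, ‖h x‖ ≤ r := by
    have hc : IsCompact Wᶜ := hW.isClosed_compl.isCompact
    by_cases hne : (Wᶜ).Nonempty
    · obtain ⟨x0, hx0, hmax⟩ := hc.exists_isMaxOn hne hg.1.norm.continuousOn
      exact ⟨‖h x0‖, norm_nonneg _, hlt x0 hx0, fun x hx => hmax hx⟩
    · refine ⟨0, le_rfl, one_pos, fun x hx => ?_⟩
      exact absurd ⟨x, hx⟩ hne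
  obtain ⟨n, hn⟩ : ∃ n : ℕ, (r ^ 2) ^ n < δ :=
    exists_pow_lt_of_lt_one hδ (by nlinarith)
  obtain ⟨hc, ⟨X, hX⟩, hp1, hb⟩ := good_pow hg n
  rw [Submodule.mem_span_image_finset_iff_exists_fun'] at hX
  obtain ⟨a, ha⟩ := hX
  have hval : ∀ x, ∑ χ ∈ X, a χ * ev χ x = (h ^ n) x := by
    intro x
    rw [← ha]
    simp
  refine ⟨X, a, ?_, ?_, ?_, ?_⟩
  · by_contra hcon
    rw [Finset.not_nonempty_iff_eq_empty] at hcon
    have := hval 1
    rw [hcon, hp1] at this
    simp at this
  · have := hval 1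
    rw [hp1] at this
    simpa [ev_at_one] using this
  · intro x
    rw [hval]
    exact hb x
  · intro x hx
    rw [hval, Pi.pow_apply, norm_pow, ← pow_mul, mul_comm, pow_mul]
    refine le_trans ?_ hn.le
    gcongr
    exact hr x hx

end Good

section Main

variable {K : Type*} [CommGroup K] [TopologicalSpace K] [IsTopologicalGroup K]
  [CompactSpace K] [MeasurableSpace K] [BorelSpace K] (μ : Measure K)
  [μ.IsHaarMeasure] [IsProbabilityMeasure μ]

/-- Translates of the window `W`. -/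
def Sw (W : Set K) (A : Finset K) : Option A → Set K
  | none => W
  | some a => {y | (a : K)⁻¹ * y ∈ W}

/-- The weights. -/
def wa (A : Finset K) (δ : ℝ) : Option A → ℝ
  | none => 1
  | some _ => δ

omit [TopologicalSpace K] [IsTopologicalGroup K] [CompactSpace K] [MeasurableSpace K]
  [BorelSpace K] in
lemma sum_wa (A : Finset K) (δ : ℝ) : ∑ o, wa A δ o = 1 + δ * A.card := by
  rw [Fintype.sum_option]
  simp [wa, mul_comm]

/-- Coefficients of a product in the span of the characters in `T`. -/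
lemma norm_sum_sq_le (T : Finset (PontryaginDual K)) (b : PontryaginDual K → ℂ) :
    ‖∑ ψ ∈ T, b ψ‖ ^ 2 ≤ T.card * ∫ x, ‖∑ ψ ∈ T, b ψ * ev ψ x‖ ^ 2 ∂μ := by
  classical
  set G : K → ℂ := fun x => ∑ ψ ∈ T, b ψ * ev ψ x with hG
  have hGc : Continuous G := by
    refine continuous_finsetSum _ fun ψ _ => ?_
    exact continuous_const.mul (ev_cont ψ)
  have hGm : MemLp G 2 μ := by
    obtain ⟨C, hC⟩ : ∃ C, ∀ x, ‖G x‖ ≤ C := by
      refine ⟨∑ ψ ∈ T, ‖b ψ‖, fun x => ?_⟩
      refine (norm_sum_le _ _).trans (Finset.sum_le_sum fun ψ _ => ?_)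
      rw [norm_mul, norm_ev, mul_one]
    exact MemLp.of_bound hGc.aestronglyMeasurable C (Filter.Eventually.of_forall hC)
  have hcoef : ∀ φ ∈ T, ∫ x, G x * conj (ev φ x) ∂μ = b φ := by
    intro φ hφ
    simp only [hG, Finset.sum_mul, mul_assoc]
    rw [integral_finsetSum]
    · have : ∀ ψ ∈ T, ∫ x, b ψ * (ev ψ x * conj (ev φ x)) ∂μ = if ψ = φ then b ψ else 0 := by
        intro ψ _
        rw [integral_const_mul, integral_ev_mul]
        split_ifs <;> simp
      rw [Finset.sum_congr rfl this, Finset.sum_ite_eq' T φ b, if_pos hφ]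
    · intro ψ _
      have hc : Continuous (fun x => b ψ * (ev ψ x * conj (ev φ x))) :=
        continuous_const.mul ((ev_cont ψ).mul (Complex.continuous_conj.comp (ev_cont φ)))
      exact hc.integrable_of_hasCompactSupport (HasCompactSupport.of_compactSpace _)
  have hB := bessel μ T hGm
  rw [Finset.sum_congr rfl fun φ hφ => by rw [hcoef φ hφ]] at hB
  calc ‖∑ ψ ∈ T, b ψ‖ ^ 2 ≤ (∑ ψ ∈ T, ‖b ψ‖) ^ 2 := by
        gcongr
        exact norm_sum_le _ _
    _ ≤ T.card * ∑ ψ ∈ T, ‖b ψ‖ ^ 2 := sq_sum_le_card_mul_sum_sq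
    _ ≤ _ := by gcongr

theorem partA {ι : Type*} [Fintype ι] (g : ι → (K →* K)) (hg : ∀ i, Continuous (g i))
    (X T : Finset (PontryaginDual K))
    (hT : ∀ c : ι → PontryaginDual K, (∀ i, c i ∈ X) → ∃ ψ ∈ T,
      ∀ x, ev ψ x = ∏ i, ev (c i) (g i x))
    (W : Set K) (hWo : IsOpen W) (A : Finset K) (hA : ∀ x, ∃ a ∈ A, a⁻¹ * x ∈ W)
    (δ : ℝ) (hδ0 : 0 ≤ δ) (a : PontryaginDual K → ℂ) (h1 : ∑ χ ∈ X, a χ = 1)
    (hle : ∀ x, ‖∑ χ ∈ X, a χ * ev χ x‖ ≤ 1)
    (hδ : ∀ x ∉ W, ‖∑ χ ∈ X, a χ * ev χ x‖ ^ 2 ≤ δ) :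
    1 ≤ T.card * ((1 + δ * A.card) ^ Fintype.card ι * μ.real {x | ∀ i, g i x ∈ W / W}) := by
  classical
  set h : K → ℂ := fun x => ∑ χ ∈ X, a χ * ev χ x with hh
  have hcont : Continuous h := by
    refine continuous_finsetSum _ fun ψ _ => ?_
    exact continuous_const.mul (ev_cont ψ)
  have hh1 : h 1 = 1 := by
    simp only [hh, ev_at_one, mul_one]
    exact h1
  -- the product function and its expansion
  have hexp : ∃ b : PontryaginDual K → ℂ, ∀ x, ∏ i, h (g i x) = ∑ ψ ∈ T, b ψ * ev ψ x := by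
    have hspan : (fun x => ∏ i, h (g i x)) ∈
        Submodule.span ℂ (ev '' (T : Set (PontryaginDual K))) := by
      have h2 : (fun x => ∏ i, h (g i x)) =
          ∑ c ∈ Fintype.piFinset (fun _ : ι => X), (∏ i, a (c i)) •
            (fun x => ∏ i, ev (c i) (g i x)) := by
        funext x
        simp only [hh, Finset.sum_apply, Pi.smul_apply, smul_eq_mul]
        rw [Finset.prod_univ_sum]
        refine Finset.sum_congr rfl fun c _ => ?_
        rw [Finset.prod_mul_distrib]
      rw [h2]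
      refine Submodule.sum_mem _ fun c hc => Submodule.smul_mem _ _ (Submodule.subset_span ?_)
      obtain ⟨ψ, hψ, hψe⟩ := hT c (fun i => Fintype.mem_piFinset.1 hc i)
      exact ⟨ψ, hψ, funext hψe⟩
    rw [Submodule.mem_span_image_finset_iff_exists_fun'] at hspan
    obtain ⟨b, hb⟩ := hspan
    refine ⟨b, fun x => ?_⟩
    have := congrFun hb x
    simp only [Finset.sum_apply, Pi.smul_apply, smul_eq_mul] at this
    exact this.symm
  obtain ⟨b, hb⟩ := hexp
  have hb1 : ∑ ψ ∈ T, b ψ = 1 := by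
    have := hb 1
    simp only [map_one, hh1, Finset.prod_const_one, ev_at_one, mul_one] at this
    exact this.symm
  have hL := norm_sum_sq_le μ T b
  rw [hb1] at hL
  simp only [← hb, norm_one, one_pow] at hL
  refine hL.trans ?_
  refine mul_le_mul_of_nonneg_left ?_ (by positivity)
  -- pointwise bound
  have hw0 : ∀ o : Option A, 0 ≤ wa A δ o := by
    intro o
    rcases o with _ | x
    · exact zero_le_one
    · exact hδ0
  have hpt : ∀ y, ‖h y‖ ^ 2 ≤ ∑ o, wa A δ o * (Sw W A o).indicator (fun _ => (1 : ℝ)) y := by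
    intro y
    by_cases hy : y ∈ W
    · have h2 : wa A δ none * (Sw W A none).indicator (fun _ => (1 : ℝ)) y = 1 := by
        have : y ∈ Sw W A none := hy
        rw [Set.indicator_of_mem this]
        simp [wa]
      calc ‖h y‖ ^ 2 ≤ 1 := pow_le_one₀ (norm_nonneg _) (hle y)
        _ = wa A δ none * (Sw W A none).indicator (fun _ => (1 : ℝ)) y := h2.symm
        _ ≤ _ := Finset.single_le_sum (f := fun o =>
            wa A δ o * (Sw W A o).indicator (fun _ => (1 : ℝ)) y)
            (fun o _ => mul_nonneg (hw0 o) (Set.indicator_nonneg (fun _ _ => zero_le_one) _))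
            (Finset.mem_univ none)
    · obtain ⟨z, hz, hzy⟩ := hA y
      have h2 : wa A δ (some ⟨z, hz⟩) *
          (Sw W A (some ⟨z, hz⟩)).indicator (fun _ => (1 : ℝ)) y = δ := by
        have : y ∈ Sw W A (some ⟨z, hz⟩) := hzy
        rw [Set.indicator_of_mem this]
        simp [wa]
      calc ‖h y‖ ^ 2 ≤ δ := hδ y hy
        _ = wa A δ (some ⟨z, hz⟩) * (Sw W A (some ⟨z, hz⟩)).indicator (fun _ => (1 : ℝ)) y :=
          h2.symm
        _ ≤ _ := Finset.single_le_sum (f := fun o =>
            wa A δ o * (Sw W A o).indicator (fun _ => (1 : ℝ)) y)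
            (fun o _ => mul_nonneg (hw0 o) (Set.indicator_nonneg (fun _ _ => zero_le_one) _))
            (Finset.mem_univ _)
  let D : (ι → Option A) → Set K := fun d => {x | ∀ i, g i x ∈ Sw W A (d i)}
  have hprod : ∀ x, ‖∏ i, h (g i x)‖ ^ 2 ≤
      ∑ d : ι → Option A, (∏ i, wa A δ (d i)) * (D d).indicator (fun _ => (1 : ℝ)) x := by
    intro x
    calc ‖∏ i, h (g i x)‖ ^ 2 = ∏ i, ‖h (g i x)‖ ^ 2 := by
          rw [norm_prod, Finset.prod_pow]
      _ ≤ ∏ i, ∑ o, wa A δ o * (Sw W A o).indicator (fun _ => (1 : ℝ)) (g i x) :=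
          Finset.prod_le_prod (fun i _ => by positivity) fun i _ => hpt _
      _ = ∑ d : ι → Option A, ∏ i, wa A δ (d i) *
            (Sw W A (d i)).indicator (fun _ => (1 : ℝ)) (g i x) := by
          rw [Fintype.prod_sum]
      _ = _ := by
          refine Finset.sum_congr rfl fun d _ => ?_
          rw [Finset.prod_mul_distrib]
          congr 1
          by_cases hx : x ∈ D d
          · rw [Set.indicator_of_mem hx]
            refine Finset.prod_eq_one fun i _ => ?_
            rw [Set.indicator_of_mem (hx i)]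
          · rw [Set.indicator_of_notMem hx]
            have hx' : ∃ i, g i x ∉ Sw W A (d i) := by
              by_contra hcon
              push Not at hcon
              exact hx hcon
            obtain ⟨i, hi⟩ := hx'
            refine Finset.prod_eq_zero (Finset.mem_univ i) ?_
            rw [Set.indicator_of_notMem hi]
  have hDo : ∀ d, IsOpen (D d) := by
    intro d
    have hS : ∀ o, IsOpen (Sw W A o) := by
      intro o
      rcases o with _ | z
      · exact hWo
      · exact hWo.preimage (continuous_const.mul continuous_id)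
    have : D d = ⋂ i, (g i) ⁻¹' (Sw W A (d i)) := by
      ext x
      simp [D]
    rw [this]
    exact isOpen_iInter_of_finite fun i => (hS (d i)).preimage (hg i)
  have hDm : ∀ d, μ.real (D d) ≤ μ.real {x | ∀ i, g i x ∈ W / W} := by
    intro d
    by_cases hne : (D d).Nonempty
    · obtain ⟨x0, hx0⟩ := hne
      have hsub : D d ⊆ x0 • {x | ∀ i, g i x ∈ W / W} := by
        intro x hx
        rw [Set.mem_smul_set_iff_inv_smul_mem, smul_eq_mul]
        intro i
        have e1 := hx0 i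
        have e2 := hx i
        rw [map_mul, map_inv]
        revert e1 e2
        rcases d i with _ | z
        · intro e1 e2
          rw [Set.mem_div]
          exact ⟨_, e2, _, e1, by rw [div_eq_mul_inv, mul_comm]⟩
        · intro e1 e2
          rw [Set.mem_div]
          refine ⟨_, e2, _, e1, ?_⟩
          rw [div_eq_mul_inv, mul_inv_rev, inv_inv, mul_comm (z : K)⁻¹, mul_assoc,
            mul_comm ((g i) x0)⁻¹, ← mul_assoc (z : K)⁻¹, inv_mul_cancel, one_mul, mul_comm]
      refine (measureReal_mono hsub (measure_ne_top _ _)).trans (le_of_eq ?_)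
      rw [measureReal_def, measure_smul, ← measureReal_def]
    · rw [Set.not_nonempty_iff_eq_empty] at hne
      rw [hne]
      simp
  -- integrate
  have hint : ∀ d : ι → Option A,
      Integrable (fun x => (∏ i, wa A δ (d i)) * (D d).indicator (fun _ => (1 : ℝ)) x) μ :=
    fun d => ((integrable_const _).indicator (hDo d).measurableSet).const_mul _
  calc ∫ x, ‖∏ i, h (g i x)‖ ^ 2 ∂μ
      ≤ ∫ x, ∑ d : ι → Option A, (∏ i, wa A δ (d i)) * (D d).indicator (fun _ => (1 : ℝ)) x ∂μ := by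
        refine integral_mono_of_nonneg (Filter.Eventually.of_forall fun x => by positivity)
          (integrable_finsetSum _ fun d _ => hint d) (Filter.Eventually.of_forall hprod)
    _ = ∑ d : ι → Option A, (∏ i, wa A δ (d i)) * μ.real (D d) := by
        rw [integral_finsetSum _ fun d _ => hint d]
        refine Finset.sum_congr rfl fun d _ => ?_
        rw [integral_const_mul, integral_indicator_const _ (hDo d).measurableSet, smul_eq_mul,
          mul_one]
    _ ≤ ∑ d : ι → Option A, (∏ i, wa A δ (d i)) * μ.real {x | ∀ i, g i x ∈ W / W} := by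
        refine Finset.sum_le_sum fun d _ => ?_
        exact mul_le_mul_of_nonneg_left (hDm d) (Finset.prod_nonneg fun i _ => hw0 _)
    _ = _ := by
        rw [← Finset.sum_mul, ← Fintype.prod_sum (fun (_ : ι) (o : Option A) => wa A δ o),
          Finset.prod_const, sum_wa, Finset.card_univ]

/-- Maximal separated sets. -/
theorem exists_cover (V : Set K) (hV : IsOpen V) (h1 : (1 : K) ∈ V) :
    ∃ E : Finset K, E.card * μ.real V ≤ 1 ∧ ∀ y, ∃ x ∈ E, x⁻¹ * y ∈ V / V := by
  classical
  have hpos : 0 < μ.real V := by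
    rw [measureReal_def]
    exact ENNReal.toReal_pos (hV.measure_pos μ ⟨1, h1⟩).ne' (measure_ne_top _ _)
  have hbound : ∀ E : Finset K, (E : Set K).PairwiseDisjoint (fun x => x • V) →
      E.card * μ.real V ≤ 1 := by
    intro E hE
    have hm : ∀ x ∈ E, MeasurableSet (x • V) := fun x _ => (hV.smul x).measurableSet
    have h2 : μ.real (⋃ x ∈ E, x • V) = ∑ x ∈ E, μ.real (x • V) := by
      rw [measureReal_def, measure_biUnion_finset hE hm, ENNReal.toReal_sum]
      · rfl
      · intro x _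
        exact measure_ne_top _ _
    have h3 : ∀ x ∈ E, μ.real (x • V) = μ.real V := by
      intro x _
      rw [measureReal_def, measure_smul, ← measureReal_def]
    rw [Finset.sum_congr rfl h3, Finset.sum_const, nsmul_eq_mul] at h2
    rw [← h2]
    exact measureReal_le_one
  let Q : Set ℕ := {n | ∃ E : Finset K, (E : Set K).PairwiseDisjoint (fun x => x • V) ∧
    E.card = n}
  have hQne : Q.Nonempty := ⟨0, ∅, by simp, rfl⟩
  have hQb : BddAbove Q := by
    refine ⟨⌊1 / μ.real V⌋₊, ?_⟩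
    rintro n ⟨E, hE, rfl⟩
    apply Nat.le_floor
    rw [le_div_iff₀ hpos]
    exact hbound E hE
  obtain ⟨E, hE, hEc⟩ := Nat.sSup_mem hQne hQb
  refine ⟨E, hbound E hE, fun y => ?_⟩
  by_contra hcon
  push Not at hcon
  have hyE : y ∉ E := by
    intro hy
    apply hcon y hy
    rw [inv_mul_cancel]
    exact ⟨1, h1, 1, h1, by simp⟩
  have hE' : ((insert y E : Finset K) : Set K).PairwiseDisjoint (fun x => x • V) := by
    rw [Finset.coe_insert]
    rw [Set.pairwiseDisjoint_insert_of_notMem (by exact_mod_cast hyE)]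
    refine ⟨hE, fun x hx => ?_⟩
    rw [Set.disjoint_left]
    rintro _ ⟨v, hv, rfl⟩ ⟨w, hw, hvw⟩
    apply hcon x hx
    simp only [smul_eq_mul] at hvw
    refine ⟨w, hw, v, hv, ?_⟩
    have : y = x * w / v := by rw [hvw]; simp
    rw [this]
    show w / v = _
    rw [mul_div_assoc, ← mul_assoc, inv_mul_cancel, one_mul]
  have h4 : (insert y E).card ∈ Q := ⟨_, hE', rfl⟩
  have h5 := le_csSup hQb h4
  rw [Finset.card_insert_of_notMem hyE] at h5
  omega

end Main

end Pool.Agent.TH264.Bridge
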