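import Mathlib
import Pool.Agent.TH264.Bridge.Core

set_option autoImplicit false

/-! The inequality `|T_F(X)| ≤ N(𝒰_F) (1 + η |X|)^(2 |F|)`. -/

namespace Pool.Agent.TH264.Bridge

open MeasureTheory Filter Topology
open scoped ComplexConjugate Pointwise

section B

variable {K : Type*} [CommGroup K] [TopologicalSpace K] [IsTopologicalGroup K]

/-- The elementary factors. -/
noncomputable def qf {ι : Type*} (g : ι → K → K) (X : Finset (PontryaginDual K)) (k : K) (s : ι) :
    Option X → K → ℂ
  | none, _ => 1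
  | some χ, x => ev χ.1 (g s x) - ev χ.1 (g s k)

/-- The weights. -/
def wt (X : Finset (PontryaginDual K)) (η : ℝ) : Option X → ℝ
  | none => 1
  | some _ => η

open Classical in
/-- The coefficients. -/
noncomputable def bf {ι : Type*} (g : ι → K → K) (X : Finset (PontryaginDual K)) (k : K)
    (c : ι → PontryaginDual K) (s : ι) : Option X → ℂ
  | none => ev (c s) (g s k)
  | some χ => if χ.1 = c s then 1 else 0

omit [IsTopologicalGroup K] in
lemma sum_wt (X : Finset (PontryaginDual K)) (η : ℝ) : ∑ o, wt X η o = 1 + η * X.card := by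
  rw [Fintype.sum_option]
  simp [wt, mul_comm]

omit [IsTopologicalGroup K] in
lemma norm_bf {ι : Type*} (g : ι → K → K) (X : Finset (PontryaginDual K)) (k : K)
    (c : ι → PontryaginDual K) (s : ι) (o : Option X) : ‖bf g X k c s o‖ ≤ 1 := by
  rcases o with _ | χ
  · exact (norm_ev _ _).le
  · simp only [bf]
    split_ifs <;> simp

omit [IsTopologicalGroup K] in
lemma sum_bf {ι : Type*} (g : ι → K → K) (X : Finset (PontryaginDual K)) (k : K)
    (c : ι → PontryaginDual K) (hc : ∀ i, c i ∈ X) (s : ι) (x : K) :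
    ∑ o, bf g X k c s o * qf g X k s o x = ev (c s) (g s x) := by
  classical
  rw [Fintype.sum_option]
  simp only [bf, qf, mul_one, ite_mul, one_mul, zero_mul]
  rw [Finset.sum_eq_single (⟨c s, hc s⟩ : X)]
  · simp
  · intro b _ hb
    rw [if_neg]
    intro h
    exact hb (Subtype.ext h)
  · intro h
    exact absurd (Finset.mem_univ _) h

omit [IsTopologicalGroup K] in
lemma expand {ι : Type*} [Fintype ι] [DecidableEq ι] (g : ι → K → K) (X : Finset (PontryaginDual K)) (k : K)
    (c : ι → PontryaginDual K) (hc : ∀ i, c i ∈ X) (ψ : PontryaginDual K)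
    (hψ : ∀ x, ev ψ x = ∏ i, ev (c i) (g i x)) (x : K) :
    ev ψ x = ∑ d : ι → Option X, (∏ i, bf g X k c i (d i)) * ∏ i, qf g X k i (d i) x := by
  classical
  rw [hψ]
  simp only [← sum_bf g X k c hc _ x]
  rw [Fintype.prod_sum]
  refine Finset.sum_congr rfl fun d _ => ?_
  rw [Finset.prod_mul_distrib]

variable [CompactSpace K] [MeasurableSpace K] [BorelSpace K] (μ : Measure K)
  [μ.IsMulLeftInvariant] [IsProbabilityMeasure μ]

include μ in
theorem partB {ι : Type*} [Fintype ι] (g : ι → K → K) (hg : ∀ i, Continuous (g i))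
    (X T : Finset (PontryaginDual K))
    (hT : ∀ ψ ∈ T, ∃ c : ι → PontryaginDual K, (∀ i, c i ∈ X) ∧
      ∀ x, ev ψ x = ∏ i, ev (c i) (g i x))
    (η : ℝ) (hη : 0 ≤ η) (N : ℕ) (V : Fin N → Set K) (hV : ∀ j, IsOpen (V j))
    (hcov : ⋃ j, V j = Set.univ)
    (hosc : ∀ j, ∀ i, ∀ χ ∈ X, ∀ x ∈ V j, ∀ y ∈ V j, ‖ev χ (g i x) - ev χ (g i y)‖ ≤ η) :
    (T.card : ℝ) ≤ N * (1 + η * X.card) ^ (2 * Fintype.card ι) := by
  classical
  set P : Fin N → Set K := disjointed V with hP
  have hPm : ∀ j, MeasurableSet (P j) := by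
    intro j
    refine disjointedRec (p := fun s => MeasurableSet s) (fun {t i} ht => ht.diff (hV i).measurableSet)
      ((hV j).measurableSet)
  have hPV : ∀ j, P j ⊆ V j := fun j => disjointed_subset V j
  have hPu : ⋃ j, P j = Set.univ := by rw [hP, iUnion_disjointed, hcov]
  have hPd : Pairwise (Function.onFun Disjoint P) := disjoint_disjointed V
  have hm1 : ∑ j, μ.real (P j) = 1 := by
    have h1 : μ.real (⋃ j, P j) = ∑ j, μ.real (P j) := by
      rw [measureReal_def, measure_iUnion hPd hPm, tsum_fintype, ENNReal.toReal_sum]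
      · rfl
      · intro j _
        exact measure_ne_top μ _
    rw [← h1, hPu]
    simp
  -- base points
  have hk : ∀ j, ∃ k : K, ∀ x ∈ P j, k ∈ V j := by
    intro j
    by_cases h : (V j).Nonempty
    · exact ⟨h.choose, fun _ _ => h.choose_spec⟩
    · exact ⟨1, fun x hx => absurd ⟨x, hPV j hx⟩ h⟩
  choose k hk using hk
  set f : Fin N → (ι → Option X) → K → ℂ :=
    fun j d => (P j).indicator (fun x => ∏ i, qf g X (k j) i (d i) x) with hf
  have hqc : ∀ j i o, Continuous (qf g X (k j) i o) := by
    intro j i o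
    rcases o with _ | χ
    · exact continuous_const
    · exact ((ev_cont χ.1).comp (hg i)).sub continuous_const
  have hfm : ∀ j d, Measurable (f j d) := by
    intro j d
    refine Measurable.indicator ?_ (hPm j)
    exact (continuous_finsetProd _ fun i _ => hqc j i (d i)).measurable
  have hw0 : ∀ o : Option X, 0 ≤ wt X η o := by
    intro o
    rcases o with _ | χ
    · exact zero_le_one
    · exact hη
  have hfb : ∀ j d x, ‖f j d x‖ ≤ (P j).indicator (fun _ => ∏ i, wt X η (d i)) x := by
    intro j d x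
    by_cases hx : x ∈ P j
    · simp only [hf, Set.indicator_of_mem hx]
      rw [norm_prod]
      refine Finset.prod_le_prod (fun i _ => norm_nonneg _) fun i _ => ?_
      rcases d i with _ | χ
      · simp [qf, wt]
      · exact hosc j i χ.1 χ.2 x (hPV j hx) (k j) (hk j x hx)
    · simp only [hf, Set.indicator_of_notMem hx]
      simp
  have hfb' : ∀ j d x, ‖f j d x‖ ≤ ∏ i, wt X η (d i) := by
    intro j d x
    refine (hfb j d x).trans ?_
    refine Set.indicator_le_self' (fun _ _ => Finset.prod_nonneg fun i _ => hw0 _) x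
  have hfL : ∀ j d, MemLp (f j d) 2 μ := fun j d =>
    MemLp.of_bound (hfm j d).aestronglyMeasurable (∏ i, wt X η (d i)) (by
      filter_upwards with x
      exact hfb' j d x)
  have hf2 : ∀ j d, ∫ x, ‖f j d x‖ ^ 2 ∂μ ≤ (∏ i, wt X η (d i)) ^ 2 * μ.real (P j) := by
    intro j d
    have h1 : ∀ x, ‖f j d x‖ ^ 2 ≤ (P j).indicator (fun _ => (∏ i, wt X η (d i)) ^ 2) x := by
      intro x
      have h2 := hfb j d x
      by_cases hx : x ∈ P j
      · rw [Set.indicator_of_mem hx] at h2 ⊢
        gcongr
      · rw [Set.indicator_of_notMem hx] at h2 ⊢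
        have h3 : ‖f j d x‖ = 0 := le_antisymm h2 (norm_nonneg _)
        rw [h3]
        norm_num
    refine (integral_mono_of_nonneg (Filter.Eventually.of_forall fun x => by positivity) ?_
      (Filter.Eventually.of_forall h1)).trans ?_
    · exact (integrable_const _).indicator (hPm j)
    · rw [integral_indicator_const _ (hPm j), smul_eq_mul, mul_comm]
  -- the key estimate for each character
  have key : ∀ ψ ∈ T, (1 : ℝ) ≤ ∑ j, ∑ d, ‖∫ x, f j d x * conj (ev ψ x) ∂μ‖ := by
    intro ψ hψ
    obtain ⟨c, hc, hψc⟩ := hT ψ hψ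
    have h1 : ∀ x, ev ψ x = ∑ j, ∑ d, (∏ i, bf g X (k j) c i (d i)) * f j d x := by
      intro x
      obtain ⟨j0, hj0⟩ : ∃ j, x ∈ P j := by
        have : x ∈ ⋃ j, P j := by rw [hPu]; trivial
        simpa using this
      rw [Finset.sum_eq_single j0]
      · rw [expand g X (k j0) c hc ψ hψc x]
        refine Finset.sum_congr rfl fun d _ => ?_
        simp only [hf, Set.indicator_of_mem hj0]
      · intro j _ hj
        refine Finset.sum_eq_zero fun d _ => ?_
        have : x ∉ P j := fun hx => (Set.disjoint_left.1 (hPd hj) hx) hj0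
        simp only [hf, Set.indicator_of_notMem this, mul_zero]
      · intro h
        exact absurd (Finset.mem_univ _) h
    have h2 : ∫ x, ev ψ x * conj (ev ψ x) ∂μ = 1 := by
      rw [integral_ev_mul, if_pos rfl]
    have hint : ∀ j d, Integrable (fun x => f j d x * conj (ev ψ x)) μ := by
      intro j d
      have hmm : Measurable (fun x => f j d x * conj (ev ψ x)) := by
        have h := (hfm j d).mul (Complex.continuous_conj.comp (ev_cont ψ)).measurable
        exact h
      refine Integrable.of_bound hmm.aestronglyMeasurable (∏ i, wt X η (d i)) ?_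
      filter_upwards with x
      rw [norm_mul, RCLike.norm_conj, norm_ev, mul_one]
      exact hfb' j d x
    have h3 : ∫ x, ev ψ x * conj (ev ψ x) ∂μ =
        ∑ j, ∑ d, (∏ i, bf g X (k j) c i (d i)) * ∫ x, f j d x * conj (ev ψ x) ∂μ := by
      have h4 : ∀ x, ev ψ x * conj (ev ψ x) =
          ∑ j, ∑ d, (∏ i, bf g X (k j) c i (d i)) * (f j d x * conj (ev ψ x)) := by
        intro x
        generalize conj (ev ψ x) = z
        rw [h1 x, Finset.sum_mul]
        refine Finset.sum_congr rfl fun j _ => ?_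
        rw [Finset.sum_mul]
        refine Finset.sum_congr rfl fun d _ => ?_
        ring
      simp only [h4]
      rw [integral_finsetSum]
      · refine Finset.sum_congr rfl fun j _ => ?_
        rw [integral_finsetSum]
        · refine Finset.sum_congr rfl fun d _ => ?_
          rw [integral_const_mul]
        · intro d _
          exact (hint j d).const_mul _
      · intro j _
        exact integrable_finsetSum _ fun d _ => (hint j d).const_mul _
    rw [h2] at h3
    have h5 : (1 : ℝ) = ‖(1 : ℂ)‖ := by simp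
    rw [h5, h3]
    refine (norm_sum_le _ _).trans (Finset.sum_le_sum fun j _ => ?_)
    refine (norm_sum_le _ _).trans (Finset.sum_le_sum fun d _ => ?_)
    rw [norm_mul]
    have h6 : ‖∏ i, bf g X (k j) c i (d i)‖ ≤ 1 := by
      rw [norm_prod]
      exact Finset.prod_le_one (fun i _ => norm_nonneg _) fun i _ => norm_bf _ _ _ _ _ _
    exact mul_le_of_le_one_left (norm_nonneg _) h6
  -- summation over the characters
  have hsumψ : ∀ j d, ∑ ψ ∈ T, ‖∫ x, f j d x * conj (ev ψ x) ∂μ‖ ≤
      Real.sqrt T.card * ((∏ i, wt X η (d i)) * Real.sqrt (μ.real (P j))) := by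
    intro j d
    have h1 : (∑ ψ ∈ T, ‖∫ x, f j d x * conj (ev ψ x) ∂μ‖) ^ 2 ≤
        T.card * ∑ ψ ∈ T, ‖∫ x, f j d x * conj (ev ψ x) ∂μ‖ ^ 2 := sq_sum_le_card_mul_sum_sq
    have h2 := (bessel μ T (hfL j d)).trans (hf2 j d)
    have h3 : (∑ ψ ∈ T, ‖∫ x, f j d x * conj (ev ψ x) ∂μ‖) ^ 2 ≤
        (Real.sqrt T.card * ((∏ i, wt X η (d i)) * Real.sqrt (μ.real (P j)))) ^ 2 := by
      rw [mul_pow, mul_pow, Real.sq_sqrt (by positivity), Real.sq_sqrt (by positivity)]
      refine h1.trans ?_
      gcongr
    refine le_of_sq_le_sq h3 ?_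
    have := Finset.prod_nonneg (s := Finset.univ) fun (i : ι) _ => hw0 (d i)
    positivity
  have htot : (T.card : ℝ) ≤ Real.sqrt T.card *
      ((1 + η * X.card) ^ Fintype.card ι * Real.sqrt N) := by
    calc (T.card : ℝ) = ∑ ψ ∈ T, 1 := by simp
      _ ≤ ∑ ψ ∈ T, ∑ j, ∑ d, ‖∫ x, f j d x * conj (ev ψ x) ∂μ‖ :=
          Finset.sum_le_sum fun ψ hψ => key ψ hψ
      _ = ∑ j, ∑ d, ∑ ψ ∈ T, ‖∫ x, f j d x * conj (ev ψ x) ∂μ‖ := by
          rw [Finset.sum_comm]
          refine Finset.sum_congr rfl fun j _ => ?_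
          rw [Finset.sum_comm]
      _ ≤ ∑ j, ∑ d : ι → Option X,
          Real.sqrt T.card * ((∏ i, wt X η (d i)) * Real.sqrt (μ.real (P j))) :=
          Finset.sum_le_sum fun j _ => Finset.sum_le_sum fun d _ => hsumψ j d
      _ = Real.sqrt T.card * ((1 + η * X.card) ^ Fintype.card ι *
          ∑ j, Real.sqrt (μ.real (P j))) := by
          have h1 : (1 + η * X.card) ^ Fintype.card ι =
              ∑ d : ι → Option X, ∏ i, wt X η (d i) := by
            rw [← Fintype.prod_sum (fun (_ : ι) (o : Option X) => wt X η o)]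
            rw [Finset.prod_const, sum_wt, Finset.card_univ]
          rw [h1, Finset.mul_sum, Finset.mul_sum]
          refine Finset.sum_congr rfl fun j _ => ?_
          rw [Finset.sum_mul, Finset.mul_sum]
      _ ≤ _ := by
          have h1 : ∑ j, Real.sqrt (μ.real (P j)) ≤ Real.sqrt N := by
            have h2 : (∑ j : Fin N, Real.sqrt (μ.real (P j))) ^ 2 ≤
                (Finset.univ : Finset (Fin N)).card * ∑ j, Real.sqrt (μ.real (P j)) ^ 2 :=
              sq_sum_le_card_mul_sum_sq
            have h3 : ∑ j, Real.sqrt (μ.real (P j)) ^ 2 = 1 := by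
              rw [← hm1]
              exact Finset.sum_congr rfl fun j _ => Real.sq_sqrt (by positivity)
            rw [h3, mul_one, Finset.card_univ, Fintype.card_fin] at h2
            exact Real.le_sqrt_of_sq_le h2
          gcongr
  rcases Nat.eq_zero_or_pos T.card with h0 | h0
  · rw [h0]
    simp only [Nat.cast_zero]
    positivity
  · have hs : 0 < Real.sqrt T.card := Real.sqrt_pos.2 (by exact_mod_cast h0)
    have h1 : Real.sqrt T.card ≤ (1 + η * X.card) ^ Fintype.card ι * Real.sqrt N := by
      have h2 : (T.card : ℝ) = Real.sqrt T.card * Real.sqrt T.card :=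
        (Real.mul_self_sqrt (by positivity)).symm
      rw [h2] at htot
      rw [Real.sqrt_mul_self hs.le] at htot
      exact le_of_mul_le_mul_left htot hs
    calc (T.card : ℝ) = Real.sqrt T.card ^ 2 := (Real.sq_sqrt (by positivity)).symm
      _ ≤ ((1 + η * X.card) ^ Fintype.card ι * Real.sqrt N) ^ 2 := by gcongr
      _ = _ := by
        rw [mul_pow, Real.sq_sqrt (by positivity), ← pow_mul, mul_comm (Fintype.card ι) 2, mul_comm]

end B

end Pool.Agent.TH264.Bridge
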